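import Pool.Agent.FHQ.StmtsG

/-!
# Squad FHQ, row FH2: the induction step `k -> 2 k`
-/

open scoped BigOperators

noncomputable section

namespace Pool.Agent.FHQ.H3

theorem fh2 (ldt : LdtStmt) : Fh2Stmt := by
  intro d k hd h1 n S hS α hα
  obtain ⟨T, hT, hTs⟩ := ldt.1 d n k S hS
  obtain ⟨S', hS', hSs⟩ := ldt.2.2 d n S hS
  obtain ⟨β₁, hβ₁, p1, H1⟩ := h1 (k * n) T hT α hα
  obtain ⟨β, hβ, p2, H2⟩ := hd (n + 1) S' hS' β₁ hβ₁
  refine ⟨β, hβ, max p1 p2, ?_⟩
  intro p _ K _ A hp N b hN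
  have hp1 : p1 ≤ p := le_trans (le_max_left _ _) hp
  have hp2 : p2 ≤ p := le_trans (le_max_right _ _) hp
  let w : Fin (N ^ k) → Fin (k * n) → K := fun q c =>
    b ((finFunctionFinEquiv.symm q) (finProdFinEquiv.symm c).1) (finProdFinEquiv.symm c).2
  have hw : ∀ (q : Fin (N ^ k)) (j : Fin k), (fun l => w q (finProdFinEquiv (j, l))) =
      b ((finFunctionFinEquiv.symm q) j) := by
    intro q j
    funext l
    simp only [w, Equiv.symm_apply_apply]
  have hcount : α * ((N ^ k : ℕ) : ℝ) ^ 2 ≤ (({f : Fin 2 → Fin (N ^ k) | ∃ x : Fin 1 → K, ∀ i,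
      T p K A (Fin.append x (w (f i)))}.ncard : ℕ) : ℝ) := by
    have e1 : α * ((N ^ k : ℕ) : ℝ) ^ 2 = α * (N : ℝ) ^ (2 * k) := by
      rw [Nat.cast_pow, ← pow_mul, mul_comm k 2]
    rw [e1]
    refine le_trans hN ?_
    rw [Nat.cast_le]
    refine Set.ncard_le_ncard_of_injOn
      (fun F : Fin (2 * k) → Fin N => fun i : Fin 2 =>
        finFunctionFinEquiv (fun j : Fin k => F (finProdFinEquiv (i, j)))) ?_ ?_ (Set.toFinite _)
    · rintro F ⟨x, hx⟩
      refine ⟨fun _ => x 0, ?_⟩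
      intro i
      rw [hTs]
      refine ⟨Fin.tail x, ?_⟩
      intro j
      rw [hw, Equiv.symm_apply_apply, Fin.cons_self_tail]
      exact hx _
    · intro F _ F' _ hFF
      funext c
      have h2 := congrFun hFF (finProdFinEquiv.symm c).1
      have h3 := congrFun (finFunctionFinEquiv.injective h2) (finProdFinEquiv.symm c).2
      change F (finProdFinEquiv ((finProdFinEquiv.symm c).1, (finProdFinEquiv.symm c).2)) =
        F' (finProdFinEquiv ((finProdFinEquiv.symm c).1, (finProdFinEquiv.symm c).2)) at h3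
      rwa [Prod.mk.eta, Equiv.apply_symm_apply] at h3
  obtain ⟨x, hx⟩ := H1 p K A hp1 (N ^ k) w hcount
  have hcount2 : β₁ * (N : ℝ) ^ k ≤ (({f : Fin k → Fin N | ∃ x' : Fin d → K, ∀ i,
      S' p K A (Fin.append x' (Fin.cons (x 0) (b (f i)) : Fin (n + 1) → K))}.ncard : ℕ) : ℝ) := by
    rw [Nat.cast_pow] at hx
    refine le_trans hx ?_
    rw [Nat.cast_le]
    refine Set.ncard_le_ncard_of_injOn (fun q => finFunctionFinEquiv.symm q) ?_ ?_
      (Set.toFinite _)
    · intro q hq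
      obtain ⟨x', hx'⟩ := (hTs p K A x (w q)).1 hq
      refine ⟨x', ?_⟩
      intro i
      rw [hSs, ← hw]
      exact hx' i
    · intro q _ q' _ h
      exact finFunctionFinEquiv.symm.injective h
  obtain ⟨x', hx'⟩ := H2 p K A hp2 N (fun i => Fin.cons (x 0) (b i)) hcount2
  refine ⟨Fin.cons (x 0) x', ?_⟩
  refine le_trans hx' (le_of_eq ?_)
  congr 2
  ext i
  exact hSs p K A (x 0) x' (b i)

end Pool.Agent.FHQ.H3
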