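import Pool.Agent.FHQ.StmtsZ

/-!
# Squad FHQ, row ZLO: the theorem of Łoś
-/

open scoped BigOperators

noncomputable section

namespace Pool.Agent.FHQ.H3

variable (F : ℕ → Type) [∀ i, Field (F i)] (U : Ultrafilter ℕ)

theorem cls_eq_iff (f g : ∀ i, F i) :
    cls F U f = cls F U g ↔ ∀ᶠ i in (U : Filter ℕ), f i = g i := by
  unfold cls
  rw [Ideal.Quotient.eq, mem_UI]
  refine Filter.eventually_congr (Filter.Eventually.of_forall fun i => ?_)
  rw [Pi.sub_apply, sub_eq_zero]

theorem cls_eq_zero_iff (f : ∀ i, F i) :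
    cls F U f = 0 ↔ ∀ᶠ i in (U : Filter ℕ), f i = 0 := by
  unfold cls
  rw [Ideal.Quotient.eq_zero_iff_mem, mem_UI]

theorem cls_ne_zero_iff (f : ∀ i, F i) :
    cls F U f ≠ 0 ↔ ∀ᶠ i in (U : Filter ℕ), f i ≠ 0 := by
  rw [Ultrafilter.eventually_not, ← cls_eq_zero_iff]

theorem cls_add (f g : ∀ i, F i) : cls F U f + cls F U g = cls F U (fun i => f i + g i) :=
  (map_add (Ideal.Quotient.mk (UI F U)) f g).symm

theorem cls_sub (f g : ∀ i, F i) : cls F U f - cls F U g = cls F U (fun i => f i - g i) :=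
  (map_sub (Ideal.Quotient.mk (UI F U)) f g).symm

theorem cls_mul (f g : ∀ i, F i) : cls F U f * cls F U g = cls F U (fun i => f i * g i) :=
  (map_mul (Ideal.Quotient.mk (UI F U)) f g).symm

theorem cls_one : cls F U (fun _ => 1) = 1 := map_one (Ideal.Quotient.mk (UI F U))

theorem cls_surj (a : UP F U) : ∃ f, cls F U f = a := Ideal.Quotient.mk_surjective a

theorem cls_div (f g : ∀ i, F i) (hg : cls F U g ≠ 0) :
    cls F U f / cls F U g = cls F U (fun i => f i / g i) := by
  rw [div_eq_iff hg, cls_mul, cls_eq_iff]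
  have h := (cls_ne_zero_iff F U g).1 hg
  exact h.mono fun i hi => (div_mul_cancel₀ (f i) hi).symm

theorem aeval_cls {n : ℕ} (x : Fin n → ∀ i, F i) (P : MvPolynomial (Fin n) ℤ) :
    MvPolynomial.aeval (fun j => cls F U (x j)) P =
      cls F U (fun i => MvPolynomial.aeval (fun j => x j i) P) := by
  induction P using MvPolynomial.induction_on with
  | C a =>
    simp only [MvPolynomial.aeval_C]
    have h1 : (fun i => (algebraMap ℤ (F i)) a) = ((a : ℤ) : ∀ i, F i) := by
      funext i
      simp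
    rw [h1]
    unfold cls
    rw [map_intCast]
    simp
  | add P Q hP hQ =>
    simp only [map_add]
    rw [hP, hQ, cls_add]
  | mul_X P j hP =>
    simp only [map_mul, MvPolynomial.aeval_X]
    rw [hP, cls_mul]

theorem em_cls (mx : ∀ i, Set (F i)) (f g : ∀ i, F i) :
    Em (UM F U mx) (cls F U f) (cls F U g) ↔
      ∀ᶠ i in (U : Filter ℕ), Em (mx i) (f i) (g i) := by
  unfold Em
  rw [Filter.eventually_and, Filter.eventually_and, ← cls_ne_zero_iff, ← cls_ne_zero_iff]
  refine and_congr_right fun _ => and_congr_right fun hg => ?_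
  rw [cls_div F U f g hg, ← cls_one F U, cls_sub]
  constructor
  · rintro ⟨h, h1, h2⟩
    rw [cls_eq_iff] at h1
    exact (h1.and h2).mono fun i hi => by
      rw [← hi.1]
      exact hi.2
  · intro h
    exact ⟨_, rfl, h⟩

theorem cons_cls {n : ℕ} (y : ∀ i, F i) (x : Fin n → ∀ i, F i) :
    (Fin.cons (cls F U y) (fun j => cls F U (x j)) : Fin (n + 1) → UP F U) =
      fun j => cls F U ((Fin.cons y x : Fin (n + 1) → ∀ i, F i) j) := by
  funext j
  refine Fin.cases ?_ (fun j => ?_) j
  · rfl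
  · rfl

theorem cons_ev {n : ℕ} (y : ∀ i, F i) (x : Fin n → ∀ i, F i) (i : ℕ) :
    (Fin.cons (y i) (fun j => x j i) : Fin (n + 1) → F i) =
      fun j => (Fin.cons y x : Fin (n + 1) → ∀ i, F i) j i := by
  funext j
  refine Fin.cases ?_ (fun j => ?_) j
  · rfl
  · rfl

theorem zlo : ZloStmt := by
  intro F _ U mx n φ
  induction φ with
  | eq P =>
    intro x
    change MvPolynomial.aeval (fun j => cls F U (x j)) P = 0 ↔
      ∀ᶠ i in (U : Filter ℕ), MvPolynomial.aeval (fun j => x j i) P = 0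
    rw [aeval_cls, cls_eq_zero_iff]
  | rv P Q =>
    intro x
    change Em (UM F U mx) (MvPolynomial.aeval (fun j => cls F U (x j)) P)
        (MvPolynomial.aeval (fun j => cls F U (x j)) Q) ↔
      ∀ᶠ i in (U : Filter ℕ), Em (mx i) (MvPolynomial.aeval (fun j => x j i) P)
        (MvPolynomial.aeval (fun j => x j i) Q)
    rw [aeval_cls, aeval_cls, em_cls]
  | not φ ih =>
    intro x
    have h := ih x
    change (¬ φ.real (UP F U) (Em (UM F U mx)) (fun j => cls F U (x j))) ↔
      ∀ᶠ i in (U : Filter ℕ), ¬ φ.real (F i) (Em (mx i)) (fun j => x j i)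
    rw [h, Ultrafilter.eventually_not]
  | and φ ψ ih1 ih2 =>
    intro x
    have h1 := ih1 x
    have h2 := ih2 x
    change (φ.real (UP F U) (Em (UM F U mx)) (fun j => cls F U (x j)) ∧
        ψ.real (UP F U) (Em (UM F U mx)) (fun j => cls F U (x j))) ↔
      ∀ᶠ i in (U : Filter ℕ), (φ.real (F i) (Em (mx i)) (fun j => x j i) ∧
        ψ.real (F i) (Em (mx i)) (fun j => x j i))
    rw [h1, h2, Filter.eventually_and]
  | @ex n φ ih =>
    intro x
    change (∃ a : UP F U, φ.real (UP F U) (Em (UM F U mx))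
        (Fin.cons a (fun j => cls F U (x j)))) ↔
      ∀ᶠ i in (U : Filter ℕ), ∃ a : F i, φ.real (F i) (Em (mx i))
        (Fin.cons a (fun j => x j i))
    constructor
    · rintro ⟨a, ha⟩
      obtain ⟨y, rfl⟩ := cls_surj F U a
      rw [cons_cls, ih] at ha
      exact ha.mono fun i hi => ⟨y i, by rw [cons_ev]; exact hi⟩
    · intro h
      classical
      let y : ∀ i, F i := fun i => if hi : ∃ a : F i, φ.real (F i) (Em (mx i))
        (Fin.cons a (fun j => x j i)) then hi.choose else 0
      refine ⟨cls F U y, ?_⟩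
      rw [cons_cls, ih]
      refine h.mono fun i hi => ?_
      rw [← cons_ev]
      have hy : y i = hi.choose := dif_pos hi
      rw [hy]
      exact hi.choose_spec

end Pool.Agent.FHQ.H3
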